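import Pool.Agent.U485.SM.Stm

set_option autoImplicit false

/-! # Monotone sieve levels: the window is cut where the levels change (project HT, package PCE) -/

namespace Pool.Agent.U139.HT

open Finset
open Pool.Agent.U485.SM

theorem convex_Ioc (A : Finset ℤ) (hA : ∀ a ∈ A, ∀ b ∈ A, ∀ c, a ≤ c → c ≤ b → c ∈ A)
    (hne : A.Nonempty) : ∃ m M : ℤ, m ≤ M ∧ M ∈ A ∧ A = Ioc m M := by
  refine ⟨A.min' hne - 1, A.max' hne, ?_, A.max'_mem hne, ?_⟩
  · have := A.min'_le _ (A.max'_mem hne)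
    omega
  · ext c
    rw [mem_Ioc]
    constructor
    · intro hc
      have h2 := A.min'_le c hc
      have h3 := A.le_max' c hc
      omega
    · rintro ⟨h2, h3⟩
      exact hA _ (A.min'_mem hne) _ (A.max'_mem hne) c (by omega) h3

theorem Om_congr (F : Finset (ℤ × ℤ)) (t t' : ℤ × ℤ → ℕ) (h : ∀ f ∈ F, t f = t' f) (p : ℕ) :
    Om F t p = Om F t' p := by
  unfold Om
  apply filter_congr
  intro r _
  constructor
  · rintro ⟨f, hf, h1, h2⟩
    exact ⟨f, hf, by rw [← h f hf]; exact h1, h2⟩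
  · rintro ⟨f, hf, h1, h2⟩
    exact ⟨f, hf, by rw [h f hf]; exact h1, h2⟩

theorem Sg_congr (F : Finset (ℤ × ℤ)) (t t' : ℤ × ℤ → ℕ) (h : ∀ f ∈ F, t f = t' f) :
    Sg F t = Sg F t' := by
  unfold Sg
  have h1 : F.sup t = F.sup t' := Finset.sup_congr rfl h
  rw [h1]
  congr 1
  · exact prod_congr rfl fun p _ => by rw [Om_congr F t t' h p]
  · exact prod_congr rfl fun f hf => by rw [h f hf]

/-- the level is monotone or antitone -/
theorem lev_between {T : ℕ → ℕ} (hT : Monotone T) (f : ℤ × ℤ) {a b c : ℤ} (h1 : a ≤ c)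
    (h2 : c ≤ b) {y : ℕ} (ha : T (val f a).toNat = y) (hb : T (val f b).toNat = y) :
    T (val f c).toNat = y := by
  unfold Pool.Agent.U485.SM.val at *
  rcases le_total 0 f.1 with h | h
  · have e1 : (f.1 * a + f.2).toNat ≤ (f.1 * c + f.2).toNat := Int.toNat_le_toNat (by nlinarith)
    have e2 : (f.1 * c + f.2).toNat ≤ (f.1 * b + f.2).toNat := Int.toNat_le_toNat (by nlinarith)
    have e3 := hT e1
    have e4 := hT e2
    omega
  · have e1 : (f.1 * c + f.2).toNat ≤ (f.1 * a + f.2).toNat := Int.toNat_le_toNat (by nlinarith)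
    have e2 : (f.1 * b + f.2).toNat ≤ (f.1 * c + f.2).toNat := Int.toNat_le_toNat (by nlinarith)
    have e3 := hT e1
    have e4 := hT e2
    omega

open Classical in
theorem t_PCE (h : S_CST) : S_PCE := by
  intro k b₀
  obtain ⟨K, D, hK, H⟩ := h k b₀
  refine ⟨K, D + k, hK, fun T hT F J1 J2 z hF hcop _ hval => ?_⟩
  obtain ⟨lev, hlev⟩ : ∃ lev : ℤ → F → ℕ, lev = fun n f => T (val f.1 n).toNat := ⟨_, rfl⟩
  obtain ⟨I, hI⟩ : ∃ I : Finset (F → ℕ), I = Fintype.piFinset fun _ : F => range (z + 1) :=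
    ⟨_, rfl⟩
  have hmaps : ∀ n ∈ Ioc J1 J2, lev n ∈ I := by
    intro n hn
    rw [hI, Fintype.mem_piFinset]
    intro f
    rw [mem_range, hlev]
    have := (hval n hn f.1 f.2).2
    simp only
    omega
  have key : ∀ y ∈ I, |∑ n ∈ (Ioc J1 J2).filter (fun n => lev n = y),
      ∏ f ∈ F, fT T (val f n).toNat - ∑ n ∈ (Ioc J1 J2).filter (fun n => lev n = y),
        Sg F (fun f => T (val f n).toNat)| ≤
      (1 / 2) ^ b₀ * ∑ n ∈ (Ioc J1 J2).filter (fun n => lev n = y),
        Sg F (fun f => T (val f n).toNat) + K * ((z : ℝ) + 2) ^ D := by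
    intro y _
    obtain ⟨A, hA⟩ : ∃ A, A = (Ioc J1 J2).filter (fun n => lev n = y) := ⟨_, rfl⟩
    rw [← hA]
    have hAm : ∀ n, n ∈ A ↔ n ∈ Ioc J1 J2 ∧ lev n = y := by
      intro n
      rw [hA, mem_filter]
    rcases A.eq_empty_or_nonempty with h0 | hne
    · rw [h0]
      simp only [sum_empty, sub_zero, abs_zero, mul_zero, zero_add]
      positivity
    have hconv : ∀ a ∈ A, ∀ b ∈ A, ∀ c, a ≤ c → c ≤ b → c ∈ A := by
      intro a ha b hb c hac hcb
      rw [hAm, mem_Ioc] at ha hb ⊢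
      refine ⟨⟨by omega, by omega⟩, ?_⟩
      funext f
      have h1 := congrFun ha.2 f
      have h2 := congrFun hb.2 f
      rw [hlev] at h1 h2 ⊢
      exact lev_between hT f.1 hac hcb h1 h2
    obtain ⟨m, M, hmM, hMA, hIoc⟩ := convex_Ioc A hconv hne
    obtain ⟨t, ht⟩ : ∃ t : ℤ × ℤ → ℕ, t = fun f => if hf : f ∈ F then y ⟨f, hf⟩ else 0 :=
      ⟨_, rfl⟩
    have htA : ∀ n ∈ A, ∀ f ∈ F, T (val f n).toNat = t f := by
      intro n hn f hf
      have h1 := congrFun ((hAm n).1 hn).2 ⟨f, hf⟩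
      rw [hlev] at h1
      rw [ht]
      simp only
      rw [dif_pos hf]
      exact h1
    have hsup : F.sup t ≤ z := by
      refine Finset.sup_le fun f hf => ?_
      rw [← htA M hMA f hf]
      exact (hval M ((hAm M).1 hMA).1 f hf).2
    have hF1 : ∑ n ∈ A, ∏ f ∈ F, fT T (val f n).toNat = (∏ f ∈ F, W (t f)) *
        (((Ioc m M).filter (fun n : ℤ => ∀ f ∈ F, ∀ p : ℕ, p.Prime → p ≤ t f →
          ¬ (p : ℤ) ∣ val f n)).card : ℝ) := by
      have h3 : ∀ n ∈ A, ∏ f ∈ F, fT T (val f n).toNat =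
          if (∀ f ∈ F, ∀ p : ℕ, p.Prime → p ≤ t f → ¬ (p : ℤ) ∣ val f n) then
            ∏ f ∈ F, W (t f) else 0 := by
        intro n hn
        rw [← prod_ite_zero]
        refine prod_congr rfl fun f hf => ?_
        have h4 := htA n hn f hf
        have h5 := (hval n ((hAm n).1 hn).1 f hf).1
        have h6 : (((val f n).toNat : ℕ) : ℤ) = val f n := Int.toNat_of_nonneg h5.le
        have h7 : ∀ p : ℕ, p ∣ (val f n).toNat ↔ (p : ℤ) ∣ val f n := by
          intro p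
          rw [← Int.natCast_dvd_natCast, h6]
        unfold fT
        rw [h4]
        simp only [h7]
      rw [sum_congr rfl h3, ← sum_filter, sum_const, nsmul_eq_mul, hIoc, mul_comm]
    have hcardA : (A.card : ℝ) = (M : ℝ) - m := by
      rw [hIoc, Int.card_Ioc]
      have h1 : (((M - m).toNat : ℕ) : ℤ) = M - m := Int.toNat_of_nonneg (by omega)
      have h2 : (((M - m).toNat : ℕ) : ℝ) = (((M - m).toNat : ℤ) : ℝ) := by norm_cast
      rw [h2, h1]
      push_cast
      ring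
    have hG : ∑ n ∈ A, Sg F (fun f => T (val f n).toNat) = ((M : ℝ) - m) * Sg F t := by
      have h3 : ∀ n ∈ A, Sg F (fun f => T (val f n).toNat) = Sg F t :=
        fun n hn => Sg_congr F _ _ (htA n hn)
      rw [sum_congr rfl h3, sum_const, nsmul_eq_mul, hcardA]
    rw [hF1, hG]
    refine (H F t m M hF hcop hmM).trans ?_
    have h7 : ((F.sup t : ℕ) : ℝ) ≤ z := by exact_mod_cast hsup
    gcongr
  have e1 := sum_fiberwise_of_maps_to hmaps (fun n => ∏ f ∈ F, fT T (val f n).toNat)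
  have e2 := sum_fiberwise_of_maps_to hmaps (fun n => Sg F (fun f => T (val f n).toNat))
  rw [← e1, ← e2, ← sum_sub_distrib]
  refine (abs_sum_le_sum_abs _ _).trans ((sum_le_sum key).trans ?_)
  rw [sum_add_distrib, ← mul_sum, sum_const, nsmul_eq_mul]
  have hIc : (I.card : ℝ) ≤ ((z : ℝ) + 2) ^ k := by
    rw [hI, Fintype.card_piFinset]
    simp only [card_range, prod_const, card_univ, Fintype.card_coe]
    push_cast
    have h0 : (0 : ℝ) ≤ z := Nat.cast_nonneg z
    calc ((z : ℝ) + 1) ^ F.card ≤ ((z : ℝ) + 2) ^ F.card :=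
          pow_le_pow_left₀ (by linarith) (by linarith) _
      _ ≤ ((z : ℝ) + 2) ^ k := pow_le_pow_right₀ (by linarith) hF
  have h9 : (I.card : ℝ) * (K * ((z : ℝ) + 2) ^ D) ≤ K * ((z : ℝ) + 2) ^ (D + k) := by
    calc (I.card : ℝ) * (K * ((z : ℝ) + 2) ^ D) ≤ ((z : ℝ) + 2) ^ k * (K * ((z : ℝ) + 2) ^ D) := by
          gcongr
      _ = K * ((z : ℝ) + 2) ^ (D + k) := by ring
  linarith

end Pool.Agent.U139.HT
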